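import Mathlib
import Pool.Agent.H67.FS.Targets

set_option autoImplicit false

namespace Pool.Agent.H75.FS

open Pool.Agent.H67.FS Matrix

universe u

/-- basis transport along a semilinear map -/
theorem exists_basis {F F' : Type u} [Field F] [Field F'] (γ : F →+* F') {V V' : Type u}
    [AddCommGroup V] [Module F V] [AddCommGroup V'] [Module F' V'] (g : V →ₛₗ[γ] V')
    (hg : ∀ v : V', v ∈ Submodule.span F' (Set.range g))
    {n : Type} [Fintype n] [FiniteDimensional F' V'] (b : Module.Basis n F V)
    (hd : Module.finrank F' V' = Module.finrank F V) :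
    ∃ b' : Module.Basis n F' V', (∀ i, b' i = g (b i)) ∧
      ∀ v i, b'.repr (g v) i = γ (b.repr v i) := by
  have hexp : ∀ v, g v = ∑ i, γ (b.repr v i) • g (b i) := by
    intro v
    conv_lhs => rw [← b.sum_repr v]
    rw [map_sum]
    exact Finset.sum_congr rfl fun i _ => by rw [LinearMap.map_smulₛₗ]
  have hspan : ⊤ ≤ Submodule.span F' (Set.range fun i => g (b i)) := by
    intro v _
    have h1 := hg v
    refine (Submodule.span_le.2 ?_) h1
    rintro _ ⟨w, rfl⟩
    rw [SetLike.mem_coe, hexp w]
    exact Submodule.sum_mem _ fun i _ =>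
      Submodule.smul_mem _ _ (Submodule.subset_span ⟨i, rfl⟩)
  have hcard : Fintype.card n = Module.finrank F' V' := by
    rw [hd, Module.finrank_eq_card_basis b]
  refine ⟨basisOfTopLeSpanOfCardEqFinrank (fun i => g (b i)) hspan hcard, ?_, ?_⟩
  · intro i
    rw [coe_basisOfTopLeSpanOfCardEqFinrank]
  · intro v i
    set b' := basisOfTopLeSpanOfCardEqFinrank (fun i => g (b i)) hspan hcard with hb'
    have h2 : g v = ∑ i, γ (b.repr v i) • b' i := by
      rw [hexp v]
      refine Finset.sum_congr rfl fun i _ => ?_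
      rw [hb', coe_basisOfTopLeSpanOfCardEqFinrank]
    rw [h2, map_sum, Finsupp.finsetSum_apply]
    simp only [map_smul, Module.Basis.repr_self, Finsupp.smul_apply, smul_eq_mul]
    rw [Finset.sum_eq_single i]
    · simp
    · intro j _ hj
      simp [hj]
    · simp

/-- coefficientwise application of `γ` -/
def gm {F F' : Type u} [Field F] [Field F'] (γ : F →+* F') :
    (Fin 4 → F) →ₛₗ[γ] (Fin 4 → F') where
  toFun v := fun j => γ (v j)
  map_add' v w := by ext j; simp
  map_smul' c v := by ext j; simp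

theorem span_le_comap {F F' : Type u} [Field F] [Field F'] (γ : F →+* F')
    (s : Set (Fin 4 → F)) (s' : Set (Fin 4 → F')) (h : ∀ v ∈ s, gm γ v ∈ s') :
    Submodule.span F s ≤ (Submodule.span F' s').comap (gm γ) :=
  Submodule.span_le.2 fun v hv => Submodule.subset_span (h v hv)

section

variable {F F' : Type u} [Field F] [Field F'] (γ : F →+* F') {ι : Type}

/-- base change of the configuration -/
abbrev bc (e : ι → Fin 4 → F) : ι → Fin 4 → F' := fun a j => γ (e a j)

theorem hE2 (e : ι → Fin 4 → F) (a b : ι) : E2 e a b ≤ (E2 (bc γ e) a b).comap (gm γ) := by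
  refine span_le_comap γ _ _ ?_
  rintro v (rfl | rfl)
  · exact Or.inl rfl
  · exact Or.inr rfl

theorem hE3 (e : ι → Fin 4 → F) (a b c : ι) :
    E3 e a b c ≤ (E3 (bc γ e) a b c).comap (gm γ) := by
  refine span_le_comap γ _ _ ?_
  rintro v (rfl | rfl | rfl)
  · exact Or.inl rfl
  · exact Or.inr (Or.inl rfl)
  · exact Or.inr (Or.inr rfl)

variable [LinearOrder ι]

/-- base change of 2-cochains -/
def g2 (e : ι → Fin 4 → F) : C2 e →ₛₗ[γ] C2 (bc γ e) where
  toFun u := fun p => Submodule.mapQ _ _ (gm γ) (hE2 γ e p.1.1 p.1.2) (u p)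
  map_add' u v := by ext p; simp
  map_smul' c u := by ext p; simp

/-- base change of 3-cochains -/
def g3 (e : ι → Fin 4 → F) : C3 e →ₛₗ[γ] C3 (bc γ e) where
  toFun u := fun t => Submodule.mapQ _ _ (gm γ) (hE3 γ e t.1.1 t.1.2.1 t.1.2.2) (u t)
  map_add' u v := by ext p; simp
  map_smul' c u := by ext p; simp

theorem factor_mapQ {S T : Submodule F (Fin 4 → F)} {S' T' : Submodule F' (Fin 4 → F')}
    (hS : S ≤ S'.comap (gm γ)) (hT : T ≤ T'.comap (gm γ)) (h : S ≤ T) (h' : S' ≤ T')
    (x : (Fin 4 → F) ⧸ S) :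
    Submodule.factor h' (Submodule.mapQ _ _ (gm γ) hS x) =
      Submodule.mapQ _ _ (gm γ) hT (Submodule.factor h x) := by
  induction x using Submodule.Quotient.induction_on with
  | _ v => simp [Submodule.mapQ_apply]

theorem M2_g2 (e : ι → Fin 4 → F) (i : ι) (u : C2 e) :
    M2 (bc γ e) i (g2 γ e u) = g3 γ e (M2 e i u) := by
  funext t
  have e1 : r2bc (bc γ e) t (g2 γ e u) =
      Submodule.mapQ _ _ (gm γ) (hE3 γ e t.1.1 t.1.2.1 t.1.2.2) (r2bc e t u) :=
    factor_mapQ γ (hE2 γ e _ _) (hE3 γ e _ _ _) (E2_le_bc e _ _ _) (E2_le_bc _ _ _ _) _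
  have e2 : r2ac (bc γ e) t (g2 γ e u) =
      Submodule.mapQ _ _ (gm γ) (hE3 γ e t.1.1 t.1.2.1 t.1.2.2) (r2ac e t u) :=
    factor_mapQ γ (hE2 γ e _ _) (hE3 γ e _ _ _) (E2_le_ac e _ _ _) (E2_le_ac _ _ _ _) _
  have e3 : r2ab (bc γ e) t (g2 γ e u) =
      Submodule.mapQ _ _ (gm γ) (hE3 γ e t.1.1 t.1.2.1 t.1.2.2) (r2ab e t u) :=
    factor_mapQ γ (hE2 γ e _ _) (hE3 γ e _ _ _) (E2_le_ab e _ _ _) (E2_le_ab _ _ _ _) _
  change ((if i = t.1.1 then r2bc (bc γ e) t else 0) - (if i = t.1.2.1 then r2ac (bc γ e) t else 0)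
    + (if i = t.1.2.2 then r2ab (bc γ e) t else 0)) (g2 γ e u) =
    Submodule.mapQ _ _ (gm γ) (hE3 γ e t.1.1 t.1.2.1 t.1.2.2)
      (((if i = t.1.1 then r2bc e t else 0) - (if i = t.1.2.1 then r2ac e t else 0)
    + (if i = t.1.2.2 then r2ab e t else 0)) u)
  rw [LinearMap.add_apply, LinearMap.sub_apply, LinearMap.add_apply, LinearMap.sub_apply, map_add,
    map_sub]
  congr 1
  · congr 1
    · split_ifs
      · exact e1
      · simp
    · split_ifs
      · exact e2
      · simp
  · split_ifs
    · exact e3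
    · simp

end

/-- the span of the range in a product of quotients -/
theorem mem_span_range {F F' : Type u} [Field F] [Field F'] (γ : F →+* F') {J : Type} [Fintype J]
    [DecidableEq J] (S : J → Submodule F (Fin 4 → F)) (S' : J → Submodule F' (Fin 4 → F'))
    (h : ∀ j, S j ≤ (S' j).comap (gm γ)) (g : (∀ j, (Fin 4 → F) ⧸ S j) → (∀ j, (Fin 4 → F') ⧸ S' j))
    (hg : ∀ u j, g u j = Submodule.mapQ _ _ (gm γ) (h j) (u j)) (v : ∀ j, (Fin 4 → F') ⧸ S' j) :
    v ∈ Submodule.span F' (Set.range g) := by
  have h1 : ∀ j (w : Fin 4 → F'), (Pi.single j ((S' j).mkQ w) : ∀ j, (Fin 4 → F') ⧸ S' j) ∈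
      Submodule.span F' (Set.range g) := by
    intro j w
    have hw : (Pi.single j ((S' j).mkQ w) : ∀ j, (Fin 4 → F') ⧸ S' j) =
        ∑ k : Fin 4, w k • g (Pi.single j ((S j).mkQ (Pi.single k 1))) := by
      have hk : ∀ k : Fin 4, g (Pi.single j ((S j).mkQ (Pi.single k 1))) =
          Pi.single j ((S' j).mkQ (Pi.single k 1)) := by
        intro k
        funext j'
        rw [hg]
        by_cases hj : j' = j
        · subst hj
          rw [Pi.single_eq_same, Pi.single_eq_same]
          change (S' j').mkQ (gm γ (Pi.single k 1)) = _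
          congr 1
          ext l
          change γ ((Pi.single k (1 : F) : Fin 4 → F) l) = _
          by_cases hl : l = k
          · subst hl; simp
          · simp [hl]
        · rw [Pi.single_eq_of_ne hj, Pi.single_eq_of_ne hj, map_zero]
      simp only [hk]
      funext j'
      rw [Finset.sum_apply]
      by_cases hj : j' = j
      · subst hj
        simp only [Pi.smul_apply, Pi.single_eq_same]
        conv_lhs => rw [show w = ∑ k : Fin 4, w k • Pi.single k (1 : F') from by
          ext l; simp [Finset.sum_apply, Pi.single_apply]]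
        rw [map_sum]
        simp only [map_smul]
      · simp only [Pi.smul_apply, Pi.single_eq_of_ne hj, smul_zero, Finset.sum_const_zero]
    rw [hw]
    exact Submodule.sum_mem _ fun k _ => Submodule.smul_mem _ _ (Submodule.subset_span ⟨_, rfl⟩)
  have h2 : v = ∑ j, Pi.single j (v j) := by
    funext j
    rw [Finset.sum_apply]
    simp
  rw [h2]
  refine Submodule.sum_mem _ fun j _ => ?_
  obtain ⟨w, hw⟩ := (S' j).mkQ_surjective (v j)
  rw [← hw]
  exact h1 j w

theorem finrank_pi_quot {F F' : Type u} [Field F] [Field F'] {J : Type} [Fintype J]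
    (S : J → Submodule F (Fin 4 → F)) (S' : J → Submodule F' (Fin 4 → F'))
    (h : ∀ j, Module.finrank F' (S' j) = Module.finrank F (S j)) :
    Module.finrank F' (∀ j, (Fin 4 → F') ⧸ S' j) = Module.finrank F (∀ j, (Fin 4 → F) ⧸ S j) := by
  rw [Module.finrank_pi_fintype, Module.finrank_pi_fintype]
  refine Finset.sum_congr rfl fun j _ => ?_
  have h1 := Submodule.finrank_quotient_add_finrank (S j)
  have h2 := Submodule.finrank_quotient_add_finrank (S' j)
  have h3 := h j
  rw [Module.finrank_fin_fun] at h1 h2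
  omega

theorem BC (h : T_MAPFR.{u}) : T_BC.{u} := by
  intro F F' _ _ γ ι n2 n3 _ _ _ _ _ _ e b2 b3
  have f2 : ∀ a b, Module.finrank F' (E2 (bc γ e) a b) = Module.finrank F (E2 e a b) := by
    intro a b
    have := h F F' γ (Fin 2) (Fin 4) ![e a, e b]
    rw [show Set.range ![e a, e b] = {e a, e b} from by
      simp [Matrix.range_cons, Set.pair_comm]] at this
    rw [show (Set.range fun i j => γ ((![e a, e b] : Fin 2 → Fin 4 → F) i j)) =
      {bc γ e a, bc γ e b} from by
        ext v
        simp only [Set.mem_range, Fin.exists_fin_two, Set.mem_insert_iff, Set.mem_singleton_iff]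
        constructor
        · rintro (h | h)
          · exact Or.inl h.symm
          · exact Or.inr h.symm
        · rintro (h | h)
          · exact Or.inl h.symm
          · exact Or.inr h.symm] at this
    exact this
  have f3 : ∀ a b c, Module.finrank F' (E3 (bc γ e) a b c) = Module.finrank F (E3 e a b c) := by
    intro a b c
    have := h F F' γ (Fin 3) (Fin 4) ![e a, e b, e c]
    rw [show Set.range ![e a, e b, e c] = {e a, e b, e c} from by
      ext v
      simp only [Matrix.range_cons, Matrix.range_empty, Set.mem_union, Set.mem_insert_iff,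
        Set.mem_singleton_iff, Set.mem_empty_iff_false]
      tauto] at this
    rw [show (Set.range fun i j => γ ((![e a, e b, e c] : Fin 3 → Fin 4 → F) i j)) =
      {bc γ e a, bc γ e b, bc γ e c} from by
        ext v
        simp only [Set.mem_range, Fin.exists_fin_succ, Set.mem_insert_iff, Set.mem_singleton_iff,
          IsEmpty.exists_iff, or_false]
        constructor
        · rintro (h | h | h)
          · exact Or.inl h.symm
          · exact Or.inr (Or.inl h.symm)
          · exact Or.inr (Or.inr h.symm)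
        · rintro (h | h | h)
          · exact Or.inl h.symm
          · exact Or.inr (Or.inl h.symm)
          · exact Or.inr (Or.inr h.symm)] at this
    exact this
  obtain ⟨b2', hb2, -⟩ := exists_basis γ (g2 γ e)
    (mem_span_range γ _ _ (fun p : Prs ι => hE2 γ e p.1.1 p.1.2) (g2 γ e) fun _ _ => rfl)
    b2 (finrank_pi_quot _ _ fun p => f2 _ _)
  obtain ⟨b3', hb3, hr⟩ := exists_basis γ (g3 γ e)
    (mem_span_range γ _ _ (fun t : Trs ι => hE3 γ e t.1.1 t.1.2.1 t.1.2.2) (g3 γ e) fun _ _ => rfl)
    b3 (finrank_pi_quot _ _ fun t => f3 _ _ _)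
  refine ⟨b2', b3', fun i => ?_⟩
  ext s t
  rw [LinearMap.toMatrix_apply, Matrix.map_apply, LinearMap.toMatrix_apply, hb2]
  have := M2_g2 γ e i (b2 t)
  rw [show M2 (fun a j => γ (e a j)) i ((g2 γ e) (b2 t)) = g3 γ e (M2 e i (b2 t)) from this]
  exact hr _ _

end Pool.Agent.H75.FS
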