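import Mathlib
import Pool.Agent.H67.FS.Targets

set_option autoImplicit false

namespace Pool.Agent.H75.FS

open Pool.Agent.H67.FS Matrix

universe u

theorem pl_of {κ : Type u} [Field κ] {ι : Type} (e : ι → Fin 4 → κ) (h0 : ∀ a, e a 0 = 1)
    (h1 : Function.Injective (fun a => e a 1)) : PL e := by
  intro a b hab
  rw [LinearIndependent.pair_iff]
  intro s t hst
  have e0 := congrFun hst 0
  have e1 := congrFun hst 1
  simp only [Pi.add_apply, Pi.smul_apply, smul_eq_mul, h0, Pi.zero_apply, mul_one] at e0 e1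
  have ht : t = -s := by linear_combination e0
  subst ht
  have h2 : s * (e a 1 - e b 1) = 0 := by linear_combination e1
  rcases mul_eq_zero.1 h2 with h | h
  · subst h; simp
  · exact absurd (h1 (sub_eq_zero.1 h)) hab

theorem choose_ge (c : ℕ) (hc : 5 ≤ c) : (c - 2) ^ 2 + 1 ≤ c.choose 3 := by
  obtain ⟨d, rfl⟩ := Nat.exists_eq_add_of_le' hc
  induction d with
  | zero => decide
  | succ d ih =>
    have h1 := ih (by omega)
    have h2 : (d + 1 + 5).choose 3 = (d + 5).choose 2 + (d + 5).choose 3 := by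
      rw [show d + 1 + 5 = (d + 5) + 1 from by ring, Nat.choose_succ_succ' (d + 5) 2]
    have h3 : 2 * (d + 5).choose 2 = (d + 5) * (d + 4) := by
      rw [Nat.choose_two_right, show d + 5 - 1 = d + 4 from rfl]
      exact Nat.mul_div_cancel' (even_iff_two_dvd.1 (by
        rw [mul_comm]; exact Nat.even_mul_succ_self (d + 4)))
    rw [h2]
    have e1 : d + 5 - 2 = d + 3 := by omega
    have e2 : d + 1 + 5 - 2 = d + 4 := by omega
    rw [e1] at h1
    rw [e2]
    nlinarith

section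

variable {κ : Type u} [Field κ] {ι : Type} [LinearOrder ι] (e : ι → Fin 4 → κ)

omit [LinearOrder ι] in
theorem exists_notMem (a b c : ι) : ∃ v : Fin 4 → κ, v ∉ E3 e a b c := by
  by_contra h
  push Not at h
  have h1 : Submodule.span κ (Set.range ![e a, e b, e c]) = ⊤ := by
    rw [eq_top_iff]
    intro v _
    have h3 : Set.range ![e a, e b, e c] = {e a, e b, e c} := by
      ext v
      simp only [Matrix.range_cons, Matrix.range_empty, Set.mem_union, Set.mem_insert_iff,
        Set.mem_singleton_iff, Set.mem_empty_iff_false]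
      tauto
    rw [h3]
    exact h v
  have h4 := finrank_range_le_card (R := κ) ![e a, e b, e c]
  rw [Set.finrank, h1, finrank_top, Module.finrank_fin_fun, Fintype.card_fin] at h4
  omega

theorem r2bc_apply (t : Trs ι) (u : C2 e) :
    r2bc e t u = Submodule.factor (E2_le_bc e t.1.1 t.1.2.1 t.1.2.2)
      (u (⟨(t.1.2.1, t.1.2.2), t.2.2⟩ : Prs ι)) := rfl

theorem r2ac_apply (t : Trs ι) (u : C2 e) :
    r2ac e t u = Submodule.factor (E2_le_ac e t.1.1 t.1.2.1 t.1.2.2)
      (u (⟨(t.1.1, t.1.2.2), t.2.1.trans t.2.2⟩ : Prs ι)) := rfl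

theorem r2ab_apply (t : Trs ι) (u : C2 e) :
    r2ab e t u = Submodule.factor (E2_le_ab e t.1.1 t.1.2.1 t.1.2.2)
      (u (⟨(t.1.1, t.1.2.1), t.2.1⟩ : Prs ι)) := rfl

theorem M2_apply (i : ι) (u : C2 e) (t : Trs ι) :
    M2 e i u t = (if i = t.1.1 then r2bc e t u else 0) - (if i = t.1.2.1 then r2ac e t u else 0)
      + (if i = t.1.2.2 then r2ab e t u else 0) := by
  change ((if i = t.1.1 then r2bc e t else 0) - (if i = t.1.2.1 then r2ac e t else 0)
    + (if i = t.1.2.2 then r2ab e t else 0)) u = _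
  rw [LinearMap.add_apply, LinearMap.sub_apply]
  split_ifs <;> rfl

theorem M2_first (t : Trs ι) (w : Fin 4 → κ) :
    M2 e t.1.1 (Pi.single (⟨(t.1.2.1, t.1.2.2), t.2.2⟩ : Prs ι)
      ((E2 e t.1.2.1 t.1.2.2).mkQ w)) =
      Pi.single t ((E3 e t.1.1 t.1.2.1 t.1.2.2).mkQ w) := by
  funext t'
  rw [M2_apply]
  by_cases htt : t' = t
  · subst htt
    have n1 : t'.1.1 ≠ t'.1.2.1 := t'.2.1.ne
    have n2 : t'.1.1 ≠ t'.1.2.2 := (t'.2.1.trans t'.2.2).ne
    rw [if_pos rfl, if_neg n1, if_neg n2, r2bc_apply, Pi.single_eq_same, Pi.single_eq_same]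
    simp
  · rw [Pi.single_eq_of_ne htt]
    have z1 : (if t.1.1 = t'.1.1 then r2bc e t' (Pi.single (⟨(t.1.2.1, t.1.2.2), t.2.2⟩ : Prs ι)
      ((E2 e t.1.2.1 t.1.2.2).mkQ w)) else 0) = 0 := by
      split_ifs with h
      · rw [r2bc_apply, Pi.single_eq_of_ne, map_zero]
        intro h2
        apply htt
        have h3 := congrArg (fun q : Prs ι => q.1.1) h2
        have h4 := congrArg (fun q : Prs ι => q.1.2) h2
        dsimp only at h3 h4
        exact Subtype.ext (Prod.ext h.symm (Prod.ext h3 h4))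
      · rfl
    have z2 : (if t.1.1 = t'.1.2.1 then r2ac e t' (Pi.single (⟨(t.1.2.1, t.1.2.2), t.2.2⟩ : Prs ι)
      ((E2 e t.1.2.1 t.1.2.2).mkQ w)) else 0) = 0 := by
      split_ifs with h
      · rw [r2ac_apply, Pi.single_eq_of_ne, map_zero]
        intro h2
        have h3 := congrArg (fun q : Prs ι => q.1.1) h2
        dsimp only at h3
        have h5 := t'.2.1
        have h6 := t.2.1
        rw [← h] at h5
        rw [h3] at h5
        exact absurd (h5.trans h6) (lt_irrefl _)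
      · rfl
    have z3 : (if t.1.1 = t'.1.2.2 then r2ab e t' (Pi.single (⟨(t.1.2.1, t.1.2.2), t.2.2⟩ : Prs ι)
      ((E2 e t.1.2.1 t.1.2.2).mkQ w)) else 0) = 0 := by
      split_ifs with h
      · rw [r2ab_apply, Pi.single_eq_of_ne, map_zero]
        intro h2
        have h3 := congrArg (fun q : Prs ι => q.1.1) h2
        dsimp only at h3
        have h5 := t'.2.1.trans t'.2.2
        have h6 := t.2.1
        rw [← h] at h5
        rw [h3] at h5
        exact absurd (h5.trans h6) (lt_irrefl _)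
      · rfl
    rw [z1, z2, z3]
    simp

/-- the ranges of the `M2 e i` span `C3 e` -/
theorem ranges_span [Finite ι] (f : C3 e →ₗ[κ] κ) (h : ∀ i u, f (M2 e i u) = 0) : f = 0 := by
  refine LinearMap.pi_ext' fun t => ?_
  refine LinearMap.ext fun q => ?_
  obtain ⟨w, rfl⟩ := (E3 e t.1.1 t.1.2.1 t.1.2.2).mkQ_surjective q
  have := h t.1.1 (Pi.single (⟨(t.1.2.1, t.1.2.2), t.2.2⟩ : Prs ι)
      ((E2 e t.1.2.1 t.1.2.2).mkQ w))
  rw [M2_first] at this
  exact this

/-- independence of the maps `M2 e i` -/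
theorem M2_linInd [Fintype ι] (hι : ∀ i : ι, (∃ t : Trs ι, t.1.1 = i) ∨ ∃ t : Trs ι, t.1.2.2 = i) :
    LinearIndependent κ (M2 e) := by
  refine (Fintype.linearIndependent_iff (R := κ) (v := M2 e)).2 ?_
  intro c hc i
  have hcu : ∀ u t, ∑ l, c l • M2 e l u t = 0 := by
    intro u t
    have := congrFun (LinearMap.congr_fun hc u) t
    rw [LinearMap.sum_apply, Finset.sum_apply] at this
    exact this
  by_contra hci
  rcases hι i with ⟨t, rfl⟩ | ⟨t, rfl⟩
  · obtain ⟨v, hv⟩ := exists_notMem e t.1.1 t.1.2.1 t.1.2.2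
    have h1 := hcu (Pi.single (⟨(t.1.2.1, t.1.2.2), t.2.2⟩ : Prs ι)
      ((E2 e t.1.2.1 t.1.2.2).mkQ v)) t
    rw [Finset.sum_eq_single t.1.1] at h1
    · rw [M2_first, Pi.single_eq_same] at h1
      rcases smul_eq_zero.1 h1 with h2 | h2
      · exact hci h2
      · exact hv ((Submodule.Quotient.mk_eq_zero _).1 h2)
    · intro l _ hl
      rw [M2_apply, if_neg hl, r2ac_apply, r2ab_apply, Pi.single_eq_of_ne, Pi.single_eq_of_ne,
        map_zero, map_zero]
      · simp
      · intro h2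
        have h3 := congrArg (fun q : Prs ι => q.1.1) h2
        exact absurd h3 t.2.1.ne
      · intro h2
        have h3 := congrArg (fun q : Prs ι => q.1.1) h2
        exact absurd h3 t.2.1.ne
    · simp
  · obtain ⟨v, hv⟩ := exists_notMem e t.1.1 t.1.2.1 t.1.2.2
    have h1 := hcu (Pi.single (⟨(t.1.1, t.1.2.1), t.2.1⟩ : Prs ι)
      ((E2 e t.1.1 t.1.2.1).mkQ v)) t
    rw [Finset.sum_eq_single t.1.2.2] at h1
    · rw [M2_apply, if_neg (t.2.1.trans t.2.2).ne', if_neg t.2.2.ne', if_pos rfl, r2ab_apply,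
        Pi.single_eq_same] at h1
      rcases smul_eq_zero.1 h1 with h2 | h2
      · exact hci h2
      · refine hv ((Submodule.Quotient.mk_eq_zero (E3 e t.1.1 t.1.2.1 t.1.2.2)).1 ?_)
        simpa using h2
    · intro l _ hl
      rw [M2_apply, if_neg hl, r2bc_apply, r2ac_apply, Pi.single_eq_of_ne, Pi.single_eq_of_ne,
        map_zero, map_zero]
      · simp
      · intro h2
        have h3 := congrArg (fun q : Prs ι => q.1.2) h2
        exact absurd h3 t.2.2.ne'
      · intro h2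
        have h3 := congrArg (fun q : Prs ι => q.1.1) h2
        exact absurd h3 t.2.1.ne'
    · simp

end

theorem hfin (N : ℕ) (hN : 5 ≤ N + 1) (i : Fin (N + 1)) :
    (∃ t : Trs (Fin (N + 1)), t.1.1 = i) ∨ ∃ t : Trs (Fin (N + 1)), t.1.2.2 = i := by
  by_cases h : i.1 ≤ 1
  · left
    exact ⟨⟨(i, ⟨2, by omega⟩, ⟨3, by omega⟩), by
      constructor
      · change i.1 < 2; omega
      · change 2 < 3; omega⟩, rfl⟩
  · right
    exact ⟨⟨(⟨0, by omega⟩, ⟨1, by omega⟩, i), by
      constructor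
      · change 0 < 1; omega
      · change 1 < i.1; omega⟩, rfl⟩

/-- bases with prescribed entries -/
theorem exists_bases {K κ : Type u} [Field K] [Field κ] [Algebra K κ] {c : ℕ} {V W : Type u}
    [AddCommGroup V] [Module κ V] [AddCommGroup W] [Module κ W] [FiniteDimensional κ V]
    [FiniteDimensional κ W] (A : Fin c → V →ₗ[κ] W) (hli : LinearIndependent κ A)
    (hsp : ∀ f : W →ₗ[κ] κ, (∀ i u, f (A i u) = 0) → f = 0) (m n : ℕ)
    (hn : Module.finrank κ V = n) (hm : Module.finrank κ W = m) (hm2 : 2 ≤ m)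
    (x y : κ) (hx : x ≠ 0) (hy : y ≠ 0) (hxy : IntermediateField.adjoin K {x, y} = ⊤) :
    ∃ (b2 : Module.Basis (Fin n) κ V) (b3 : Module.Basis (Fin m) κ W),
      LinearIndependent κ (fun i => LinearMap.toMatrix b2 b3 (A i)) ∧
      (∀ z : Fin c → κ, (∑ i, z i • LinearMap.toMatrix b2 b3 (A i)).rank =
        Module.finrank κ (LinearMap.range (∑ i, z i • A i))) ∧
      IntermediateField.adjoin K (Set.range fun s : Fin c × Fin m × Fin n =>
        LinearMap.toMatrix b2 b3 (A s.1) s.2.1 s.2.2) = ⊤ := by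
  let b2 : Module.Basis (Fin n) κ V := Module.finBasisOfFinrankEq κ V hn
  let b3 : Module.Basis (Fin m) κ W := Module.finBasisOfFinrankEq κ W hm
  -- nonzero entries in each row
  have hent : ∀ s : Fin m, ∃ (i : Fin c) (j : Fin n),
      LinearMap.toMatrix b2 b3 (A i) s j ≠ 0 := by
    intro s
    by_contra hcon
    push Not at hcon
    have hz : b3.coord s = 0 := by
      refine hsp (b3.coord s) fun i u => ?_
      have : (b3.coord s).comp (A i) = 0 := by
        refine b2.ext fun j => ?_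
        have := hcon i j
        rw [LinearMap.toMatrix_apply] at this
        exact this
      exact LinearMap.congr_fun this u
    have h2 : b3.coord s (b3 s) = 1 := by simp
    rw [hz] at h2
    exact zero_ne_one h2
  obtain ⟨i0, j0, hα⟩ := hent ⟨0, by omega⟩
  obtain ⟨i1, j1, hβ⟩ := hent ⟨1, by omega⟩
  obtain ⟨α, hαd⟩ : ∃ α, α = LinearMap.toMatrix b2 b3 (A i0) ⟨0, by omega⟩ j0 := ⟨_, rfl⟩
  obtain ⟨β, hβd⟩ : ∃ β, β = LinearMap.toMatrix b2 b3 (A i1) ⟨1, by omega⟩ j1 := ⟨_, rfl⟩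
  rw [← hαd] at hα
  rw [← hβd] at hβ
  let w : Fin m → κˣ := fun s => if s.1 = 0 then Units.mk0 (α / x) (div_ne_zero hα hx) else
    if s.1 = 1 then Units.mk0 (β / y) (div_ne_zero hβ hy) else 1
  obtain ⟨b3', hb3'⟩ : ∃ b3' : Module.Basis (Fin m) κ W, b3' = b3.unitsSMul w := ⟨_, rfl⟩
  have hentry : ∀ i s j, LinearMap.toMatrix b2 b3' (A i) s j =
      ((w s)⁻¹ : κˣ) * LinearMap.toMatrix b2 b3 (A i) s j := by
    intro i s j
    rw [LinearMap.toMatrix_apply, LinearMap.toMatrix_apply, hb3', Module.Basis.repr_unitsSMul]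
    rfl
  refine ⟨b2, b3', ?_, ?_, ?_⟩
  · exact hli.map' (LinearMap.toMatrix b2 b3').toLinearMap
      (LinearMap.ker_eq_bot.2 (LinearMap.toMatrix b2 b3').injective)
  · intro z
    have e1 : (∑ i, z i • LinearMap.toMatrix b2 b3' (A i)) =
        LinearMap.toMatrix b2 b3' (∑ i, z i • A i) := by
      rw [map_sum]
      simp only [map_smul]
    rw [e1, Matrix.rank_eq_finrank_range_toLin _ b3' b2, Matrix.toLin_toMatrix]
  · rw [eq_top_iff, ← hxy, IntermediateField.adjoin_le_iff]
    rintro a (rfl | rfl)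
    · refine IntermediateField.subset_adjoin _ _ ⟨(i0, ⟨0, by omega⟩, j0), ?_⟩
      change LinearMap.toMatrix b2 b3' (A i0) ⟨0, by omega⟩ j0 = _
      rw [hentry, ← hαd]
      have : w ⟨0, by omega⟩ = Units.mk0 (α / a) (div_ne_zero hα hx) := by
        simp [w]
      rw [this, Units.val_inv_eq_inv_val, Units.val_mk0]
      field_simp
    · refine IntermediateField.subset_adjoin _ _ ⟨(i1, ⟨1, by omega⟩, j1), ?_⟩
      change LinearMap.toMatrix b2 b3' (A i1) ⟨1, by omega⟩ j1 = _
      rw [hentry, ← hβd]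
      have : w ⟨1, by omega⟩ = Units.mk0 (β / a) (div_ne_zero hβ hy) := by
        simp [w]
      rw [this, Units.val_inv_eq_inv_val, Units.val_mk0]
      field_simp

theorem DIM (hRK : T_RK.{u}) : T_DIM.{u} := by
  intro K κ _ _ _ _ N e hGP h0 h1 x y hx hy hxy
  have hne : ∀ a, e a ≠ 0 := by
    intro a ha
    have := h0 a
    rw [ha] at this
    exact zero_ne_one this
  obtain ⟨rk1, rk2, -, rk4, -, rk6, rk7⟩ := hRK K κ (Fin (N + 1)) e hGP hne (pl_of e h0 h1)
  rw [Fintype.card_fin] at rk2 rk4 rk6 rk7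
  obtain ⟨M, rfl⟩ : ∃ M, N = M + 4 := ⟨N - 4, by omega⟩
  obtain ⟨m, hm⟩ : ∃ m, Module.finrank κ (C3 e) = m := ⟨_, rfl⟩
  rw [hm] at rk6
  have hcm : (M + 3) ^ 2 + 1 ≤ m := by
    have := choose_ge (M + 4 + 1) rk7
    rw [show M + 4 + 1 - 2 = M + 3 from by omega] at this
    exact this.trans rk6
  have hm2 : 2 ≤ m := by
    have : 1 ≤ (M + 3) ^ 2 := Nat.one_le_pow _ _ (by omega)
    omega
  rw [show M + 4 + 1 - 1 = M + 4 from by omega] at rk4
  obtain ⟨b2, b3, hb1, hb2, hb3⟩ := exists_bases (K := K) (M2 e) (M2_linInd e (hfin (M + 4) rk7))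
    (ranges_span e) m _ rk4 hm hm2 x y hx hy hxy
  refine ⟨m, _, (M + 3) ^ 2 + 1, b2, b3, Nat.le_add_left _ _, hcm, ?_, hb1, ?_, hb3⟩
  · nlinarith
  · intro z
    rw [hb2 fun i => algebraMap K κ (z i)]
    have e2 := LinearMap.finrank_range_add_finrank_ker (∑ i, algebraMap K κ (z i) • M2 e i)
    rw [← rk1 z, rk4] at e2
    have e3 := rk2 z
    generalize Module.finrank κ (LinearMap.range (∑ i, algebraMap K κ (z i) • M2 e i)) = A at *
    generalize Module.finrank κ (LinearMap.range (∑ i, algebraMap K κ (z i) • M1 e i)) = B at *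
    clear * - e2 e3
    nlinarith

end Pool.Agent.H75.FS
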